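import Mathlib
import Pool.Agent.Lib.MP_356f68_co.Gap.Step

/-! A reservoir for the block-leaving merging step. -/

set_option autoImplicit false
set_option linter.unusedSectionVars false

namespace Pool.Agent.Lib.MP_356f68_co.Cube

open Finset

variable {α : Type} [Fintype α] [DecidableEq α] {ι : Type} [DecidableEq ι]

/-- the reservoir property -/
def Res2 (E : (Fin 5 → α) → Prop) (T : ι → Fin 5 → α) (J : Finset ι) (G : ℕ) : Prop :=
  ∀ (u : Fin 5 → α) (v : α × α), Disjoint (col u) (cv v) → ∀ Us : Finset ι, Us.card < G →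
    ∃ K ⊆ J, K.card ≤ 16 ∧ Disjoint K Us ∧ Cf E T (cv v ∪ col u) K 8 8

variable {E : (Fin 5 → α) → Prop} {T : ι → Fin 5 → α}

lemma card_hit [Fintype ι] (hT : ∀ j, Function.Injective (fun a => T a j)) (S : Finset (Col α)) :
    (univ.filter (fun a => ¬ Disjoint (col (T a)) S)).card ≤ S.card := by
  have h1 : univ.filter (fun a => ¬ Disjoint (col (T a)) S)
      ⊆ S.biUnion (fun b => univ.filter (fun a => T a b.1 = b.2)) := by
    intro a ha
    obtain ⟨b, h1, h2⟩ := not_disjoint_iff.1 (mem_filter.1 ha).2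
    exact mem_biUnion.2 ⟨b, h2, mem_filter.2 ⟨mem_univ _, mem_col.1 h1⟩⟩
  refine (card_le_card h1).trans ((card_biUnion_le_card_mul S _ 1 fun b _ => ?_).trans (by simp))
  exact card_le_one.2 fun a ha c hc => hT b.1 ((mem_filter.1 ha).2.trans (mem_filter.1 hc).2.symm)

lemma many_conf2 [Fintype ι] (hE : Lat E) (hT : ∀ j, Function.Injective (fun a => T a j))
    (hm : 19 * Fintype.card α ≤ 20 * Fintype.card ι + 100) (G M : ℕ)
    (hG : 2240 * (G * M) + 3200 < 13 * Fintype.card α) (u : Fin 5 → α) (v : α × α) :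
    ∃ K : Fin G × Fin M → Finset ι, (∀ e, (K e).card ≤ 16 ∧
      (Disjoint (col u) (cv v) → Cf E T (cv v ∪ col u) (K e) 8 8)) ∧
      ∀ e e', e ≠ e' → Disjoint (K e) (K e') := by
  by_cases huv : Disjoint (col u) (cv v)
  swap
  · exact ⟨fun _ => ∅, fun _ => ⟨by simp, fun h => absurd h huv⟩, by simp⟩
  set B0 : Finset ι := univ.filter (fun a => ¬ Disjoint (col (T a)) (col u ∪ cv v)) with hB0
  have h2 : B0.card ≤ 7 := by
    have g1 := card_hit hT (col u ∪ cv v)
    have g2 := card_union_le (col u) (cv v)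
    have g3 := card_cv v
    rw [card_col] at g2
    rw [← hB0] at g1
    omega
  obtain ⟨K, h3, h4⟩ := greedy (univ : Finset (Fin G × Fin M))
    (fun _ K => Cf E T (cv v ∪ col u) K 8 8) B0 16 (7 + 16 * (G * M)) (by
      intro _ _ B hB1 hB2
      obtain ⟨K, g1, g2, g3⟩ := step2 hE hT (D := univ \ B) huv (by
        rw [CC, disjoint_biUnion_right]
        intro a ha
        by_contra h
        exact (mem_sdiff.1 ha).2 (hB1 (mem_filter.2 ⟨mem_univ _, fun h' => h h'.symm⟩))) (by
        rw [card_univ_sdiff]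
        omega)
      exact ⟨K, g2, sdiff_disjoint.mono_left g1, g3⟩) (by simp; omega)
  exact ⟨K, fun e => ⟨(h3 e (mem_univ _)).1, fun _ => (h3 e (mem_univ _)).2.2⟩,
    fun e e' => h4 e (mem_univ _) e' (mem_univ _)⟩

open Pool.Agent.Shared.FunProb in
theorem exists_res2 [Fintype ι] (hE : Lat E) (hT : ∀ j, Function.Injective (fun a => T a j))
    (hm : 19 * Fintype.card α ≤ 20 * Fintype.card ι + 100) (G M k l : ℕ) (hk : 1 ≤ k)
    (hl1 : 1 ≤ l) (hkn : k ≤ Fintype.card α) (hl : Fintype.card α < 2 ^ l)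
    (hM : M = 12 * l * k ^ 16) (hG : 2240 * (G * M) + 3200 < 13 * Fintype.card α) :
    ∃ J : Finset ι, k * J.card ≤ Fintype.card ι ∧ Res2 E T J G := by
  choose K hK1 hK2 using many_conf2 hE hT hm G M hG
  have : Nonempty (Fin k) := ⟨⟨0, hk⟩⟩
  have hk' : (1 : ℝ) ≤ k := by exact_mod_cast hk
  have hk1 : 1 / (k : ℝ) ≤ 1 := by rw [div_le_one (by linarith)]; exact hk'
  obtain ⟨φ, hφ⟩ := exists_all_succeed (P := ι) (F := Fin k)
    (ρ := (Fin 5 → α) × (α × α) × Fin G × Fin k) (ι := Fin M) (fun _ => univ)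
    (fun r i φ => ∀ a ∈ K r.1 r.2.1 (r.2.2.1, i), φ a = r.2.2.2)
    (fun r i => K r.1 r.2.1 (r.2.2.1, i)) ((1 / k) ^ 16) M (pow_le_one₀ (by positivity) hk1)
    (by positivity) (fun r i _ f g hfg h a ha => (hfg a ha) ▸ h a ha)
    (fun r i _ j _ hij => hK2 _ _ _ _ (fun h => hij (Prod.ext_iff.1 h).2))
    (fun r i _ => by
      rw [pr_forall _ (fun a (φ : ι → Fin k) => φ a = r.2.2.2) (fun a => {a})
        (fun a _ f g hfg h => (hfg a (mem_singleton_self a)).symm.trans h)
        (fun a _ b _ hab => disjoint_singleton.2 hab)]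
      simp only [pr_coord, prod_const, Fintype.card_fin]
      exact pow_le_pow_of_le_one (by positivity) hk1 (hK1 _ _ _).1)
    (by simp) (by
      set n := Fintype.card α with hn
      have hM1 : 1 ≤ M := by rw [hM]; exact Nat.mul_pos (by omega) (by positivity)
      have hGn : G ≤ n := by nlinarith
      have hn1 : 1 ≤ n := by omega
      have h1 : Fintype.card ((Fin 5 → α) × (α × α) × Fin G × Fin k) ≤ n ^ 12 := by
        simp only [Fintype.card_prod, Fintype.card_fun, Fintype.card_fin, ← hn]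
        calc _ ≤ n ^ 5 * (n * n * (n * n)) := by gcongr
          _ = n ^ 9 := by ring
          _ ≤ _ := Nat.pow_le_pow_right hn1 (by norm_num)
      have h2 : (1 - (1 / k : ℝ) ^ 16) ^ M ≤ Real.exp (-(1 / k : ℝ) ^ 16) ^ M :=
        pow_le_pow_left₀ (by linarith [pow_le_one₀ (n := 16) (by positivity) hk1])
          (by linarith [Real.add_one_le_exp (-(1 / k : ℝ) ^ 16)]) M
      have h3 : Real.exp (-(1 / k : ℝ) ^ 16) ^ M = (Real.exp 1 ^ (12 * l))⁻¹ := by
        rw [← Real.exp_nat_mul, ← Real.exp_nat_mul, ← Real.exp_neg, hM]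
        congr 1; push_cast; field_simp
      have h4 : ((n : ℝ)) ^ 12 < Real.exp 1 ^ (12 * l) := by
        rw [mul_comm, pow_mul]
        refine pow_lt_pow_left₀ ?_ (by positivity) (by norm_num)
        calc (n : ℝ) < 2 ^ l := by exact_mod_cast hl
          _ ≤ _ := pow_le_pow_left₀ (by norm_num) (by linarith [Real.add_one_le_exp 1]) l
      have h5 : (Fintype.card ((Fin 5 → α) × (α × α) × Fin G × Fin k) : ℝ) ≤ n ^ 12 := by
        exact_mod_cast h1
      rw [h3] at h2
      calc _ ≤ (n : ℝ) ^ 12 * (Real.exp 1 ^ (12 * l))⁻¹ :=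
            mul_le_mul h5 h2
              (pow_nonneg (by linarith [pow_le_one₀ (n := 16) (by positivity) hk1]) _)
              (by positivity)
        _ < 1 := by rw [← div_eq_mul_inv, div_lt_one (by positivity)]; exact h4)
  obtain ⟨c, -, hc⟩ : ∃ c ∈ (univ : Finset (Fin k)),
      k * (univ.filter (fun a => φ a = c)).card ≤ Fintype.card ι := by
    apply exists_le_of_sum_le univ_nonempty
    rw [← mul_sum, ← card_eq_sum_card_fiberwise (fun _ _ => mem_univ _)]
    simp
  refine ⟨_, hc, fun u f huf Us hUs => ?_⟩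
  choose i _ hi using fun g : Fin G => hφ (u, f, g, c)
  by_contra hne
  push Not at hne
  have h1 : ∀ g : Fin G, ∃ a, a ∈ K u f (g, i g) ∧ a ∈ Us := by
    intro g
    by_contra h
    push Not at h
    exact hne _ (fun a ha => mem_filter.2 ⟨mem_univ _, hi g a ha⟩) (hK1 _ _ _).1
      (disjoint_left.2 h) ((hK1 _ _ _).2 huf)
  choose a ha1 ha2 using h1
  have h2 := card_le_card_of_injOn (s := univ) a (fun g _ => ha2 g) (fun g _ g' _ h => by
    by_contra hg
    exact disjoint_left.1 (hK2 u f (g, i g) (g', i g') fun h => hg (Prod.ext_iff.1 h).1) (ha1 g)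
      (h ▸ ha1 g'))
  simp at h2
  omega

theorem merge2 (hT : ∀ j, Function.Injective (fun a => T a j)) {J : Finset ι} {G : ℕ}
    (hJ : Res2 E T J G) (r : ℕ) (hr : 16 * r ≤ G) (L : Finset (Col α)) (hL : Bal L r)
    (v0 : α × α) (hv : Disjoint (cv v0) L) (hd : Disjoint (cv v0 ∪ L) (CC T J)) :
    ∃ K ⊆ J, K.card ≤ 16 * r ∧ Cf E T (cv v0 ∪ L) K (8 * r) (8 * r) := by
  induction r generalizing L with
  | zero =>
    have : L = ∅ := card_eq_zero.1 (hL.card.trans (mul_zero _))
    refine ⟨∅, by simp, by simp, ∅, by simp, ∅, by simp, rfl, rfl, v0, ?_⟩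
    simp [CP, CQ, this, PM.empty]
  | succ r ih =>
    obtain ⟨u, hu⟩ := hL.exists_tuple
    have s1 : cv v0 ∪ L \ col u ⊆ cv v0 ∪ L := union_subset_union_right sdiff_subset
    obtain ⟨K, h1, h2, h3⟩ := ih (by omega) (L \ col u) (hL.sdiff (bal_col u) hu)
      (hv.mono_right sdiff_subset) (hd.mono_left s1)
    have hX : Disjoint (cv v0 ∪ L \ col u ∪ CC T K) (col u) :=
      disjoint_union_left.2 ⟨disjoint_union_left.2 ⟨hv.mono_right hu, sdiff_disjoint⟩,
        (hd.mono (hu.trans subset_union_right) (CC_mono h1)).symm⟩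
    obtain ⟨K', ⟨g1, g2⟩, g3⟩ := h3.comp hT hX (fun K' => K' ⊆ J ∧ K'.card ≤ 16)
      (i' := 8) (j' := 8) (by
      intro v hv'
      obtain ⟨K', k1, k2, k3, k4⟩ := hJ u v (hX.mono_left hv').symm K (by omega)
      exact ⟨K', ⟨k1, k2⟩, k3.symm, hd.mono s1 (CC_mono k1), k4⟩)
    rw [union_assoc, sdiff_union_of_subset hu] at g3
    exact ⟨K ∪ K', union_subset h1 g1, (card_union_le _ _).trans (by omega), g3⟩

end Pool.Agent.Lib.MP_356f68_co.Cube
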