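import Mathlib
import Pool.Agent.Lib.MP_356f68_co.Gap.Res

/-! A matching that misses one vertex of each class, three of them prescribed. -/

set_option autoImplicit false
set_option linter.unusedSectionVars false

namespace Pool.Agent.Lib.MP_356f68_co.Cube

open Finset

variable {α : Type} [Fintype α] [DecidableEq α] {ι : Type} [DecidableEq ι]
  {E : (Fin 5 → α) → Prop} {T : ι → Fin 5 → α}

lemma card_pc (p : Fin 5 → α) : (pc p).card ≤ 3 := card_le_three

lemma disj_pq (p q : Fin 5 → α) : Disjoint (pc p) (qc q) := disj_pv _ _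

theorem assemble2 [Fintype ι] [Nonempty ι] [Nonempty α] (hE : Lat E)
    (hT : ∀ j, Function.Injective (fun a => T a j)) (p : Fin 5 → α) (hp : ∀ a j, T a j ≠ p j)
    {w β G L X : ℕ} (hA : Abs E T w β)
    {J : Finset ι} (hJ : Res2 E T J G) (hL : 1 ≤ L) (h1 : J.card ≤ 2 ^ L)
    (h2 : 2 * L * J.card ≤ Fintype.card ι)
    (h3 : 5 * (2 * L * J.card) + 5 + w * (8 * L * J.card) ≤ β)
    (h4 : 100 * β ≤ Fintype.card α) (hX : 1 ≤ X) (h5 : 10 ^ 17 * X ^ 15 ≤ Fintype.card α)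
    (h6 : ∀ r, r * X ≤ 6 * Fintype.card α → 16 * r ≤ G) :
    ∃ U, PM E U ∧ Disjoint U (pc p) ∧ 5 * (Fintype.card α - 1) ≤ U.card := by
  obtain ⟨Nd, Ed, t1, t2, t3, t4, t5⟩ := template J L hL h1 h2
  have c1 : (CC T Nd ∪ col p).card ≤ 5 * (2 * L * J.card) + 5 := by
    have := card_biUnion_le_card_mul Nd (fun a => col (T a)) 5 (fun a _ => (card_col _).le)
    have g2 := card_union_le (CC T Nd) (col p)
    rw [card_col] at g2
    unfold CC at g2 ⊢; omega
  have c2 : w * Ed.card ≤ w * (8 * L * J.card) := Nat.mul_le_mul_left _ t3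
  obtain ⟨W, w1, w2⟩ := greedy Ed
    (fun e W => PM E W ∧ PM E (W ∪ (pc (T e.1) ∪ qc (T e.2)))) (CC T Nd ∪ col p) w β
    (fun e he B hB1 hB2 => hA e.1 e.2 B (by
      rw [pq_eq]
      exact ((sub_CC (singleton_subset_iff.2 (t4 e he).1)
        (singleton_subset_iff.2 (t4 e he).2)).trans subset_union_left).trans hB1) hB2) (by omega)
  have d0 : Disjoint (Ed.biUnion W) (CC T Nd ∪ col p) :=
    (disjoint_biUnion_left _ _ _).2 fun e he => (w1 e he).2.1
  have d1 : Disjoint (Ed.biUnion W) (CC T Nd) := d0.mono_right subset_union_left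
  have dp : Disjoint (CC T Nd) (col p) :=
    (disjoint_biUnion_left _ _ _).2 fun a _ => disjoint_col.2 (hp a)
  have sp : pc p ⊆ col p := col_eq p ▸ subset_union_left
  have sq : qc p ⊆ col p := col_eq p ▸ subset_union_right
  obtain ⟨k, hk⟩ : ∃ k, Bal (Ed.biUnion W ∪ (CC T Nd ∪ col p)) k := by
    obtain ⟨k1, g1⟩ := (PM.biUnion Ed W (fun e he => (w1 e he).2.2.1) w2).bal
    have g2 := bal_biUnion_col (Nd.image T) (by
      intro g hg g' hg' hne
      obtain ⟨a, -, rfl⟩ := mem_image.1 hg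
      obtain ⟨a', -, rfl⟩ := mem_image.1 hg'
      exact disjoint_col.2 fun j h => hne (congrArg T (hT j h)))
    rw [image_biUnion] at g2
    exact ⟨_, g1.union (g2.union (bal_col p) dp) d0⟩
  set R := Ed.biUnion W ∪ (CC T Nd ∪ col p) with hR
  obtain ⟨Y, y1, r, y2, y3, y4⟩ := almost hE (R := R) (by
    have g1 := card_biUnion_le_card_mul Ed W w (fun e he => (w1 e he).1)
    have g2 := card_union_le (Ed.biUnion W) (CC T Nd ∪ col p)
    rw [mul_comm] at g1
    rw [← hR] at g2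
    omega) hk X hX h5
  set Lf := (univ \ R) \ Y with hLf
  have d2 : Disjoint Lf R := sdiff_disjoint.mono_left sdiff_subset
  have r1 : CC T Nd ⊆ R := subset_union_left.trans subset_union_right
  have r2 : col p ⊆ R := subset_union_right.trans subset_union_right
  obtain ⟨K, g1, -, A, hA', B, hB', hA1, hB1, v, -, f2⟩ := merge2 hT hJ r (h6 _ y4) Lf y3
    (p 3, p 4) (d2.mono_right (sq.trans r2)).symm (disjoint_union_left.2
      ⟨(dp.mono (CC_mono t1) sq).symm, d2.mono_right ((CC_mono t1).trans r1)⟩)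
  change PM E ((qc p ∪ Lf ∪ (CP T A ∪ CQ T B)) \ cv v) at f2
  have hA := hA'.trans g1
  have hB := hB'.trans g1
  obtain ⟨Mt, m1, m2, m3, m4⟩ := t5 A hA B hB (hA1.trans hB1.symm)
  have pp := absorb hT m1 t4
    (fun e he => ⟨(w1 e he).2.1.mono_right subset_union_left, (w1 e he).2.2⟩) w2 m4
  rw [m2, m3] at pp
  have s1 : CP T A ∪ CQ T B ⊆ CC T Nd := sub_CC (hA.trans t1) (hB.trans t1)
  have s3 : CP T (Nd \ A) ∪ CQ T (Nd \ B) ⊆ CC T Nd := sub_CC sdiff_subset sdiff_subset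
  have s2 : Ed.biUnion W ∪ (CP T (Nd \ A) ∪ CQ T (Nd \ B)) ⊆ R :=
    union_subset_union_right (s3.trans subset_union_left)
  have d3 : Disjoint Y R := sdiff_disjoint.mono_left y1
  have d4 : Disjoint (col p) (Ed.biUnion W ∪ (CP T (Nd \ A) ∪ CQ T (Nd \ B))) :=
    disjoint_union_right.2 ⟨(d0.mono_right subset_union_right).symm, (dp.mono_left s3).symm⟩
  refine ⟨_, y2.union (f2.union pp (Disjoint.mono_left sdiff_subset (disjoint_union_left.2
    ⟨disjoint_union_left.2 ⟨d4.mono_left sq, d2.mono_right s2⟩,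
      disjoint_union_right.2 ⟨(d1.mono_right s1).symm,
      disj_PQ hT disjoint_sdiff disjoint_sdiff⟩⟩))) (disjoint_union_right.2
    ⟨Disjoint.mono_right sdiff_subset (disjoint_union_right.2 ⟨disjoint_union_right.2
      ⟨d3.mono_right (sq.trans r2), disjoint_sdiff⟩,
      d3.mono_right (s1.trans r1)⟩), d3.mono_right s2⟩), ?_, ?_⟩
  · refine disjoint_union_left.2 ⟨d3.mono_right (sp.trans r2), disjoint_union_left.2
      ⟨Disjoint.mono_left sdiff_subset (disjoint_union_left.2 ⟨disjoint_union_left.2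
        ⟨(disj_pq p p).symm, d2.mono_right (sp.trans r2)⟩, dp.mono s1 sp⟩),
        (d4.mono_left sp).symm⟩⟩
  refine le_trans ?_ (card_le_card (s := univ \ (pc p ∪ cv v)) ?_)
  · rw [card_univ_sdiff, Fintype.card_prod, Fintype.card_fin]
    have := card_union_le (pc p) (cv v)
    have := card_pc p
    have := card_cv v
    omega
  · intro b hb
    have hb' := (mem_sdiff.1 hb).2
    rw [mem_union, not_or] at hb'
    obtain ⟨hb1, hb2⟩ := hb'
    by_cases g0 : b ∈ col p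
    · rw [col_eq, mem_union] at g0
      exact mem_union_right _ (mem_union_left _ (mem_sdiff.2
        ⟨mem_union_left _ (mem_union_left _ (g0.resolve_left hb1)), hb2⟩))
    simp only [mem_union, mem_sdiff, hLf, hR, mem_univ, true_and, hb2, not_false_eq_true, and_true,
      mem_CP, mem_CQ, mem_CC, g0, or_false]
    by_cases g1 : ∃ a ∈ Nd, T a b.1 = b.2
    · obtain ⟨a, g2, g3⟩ := g1
      by_cases g4 : b.1.val < 3
      · by_cases g5 : a ∈ A
        · exact Or.inr (Or.inl (Or.inr (Or.inl ⟨g4, a, g5, g3⟩)))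
        · exact Or.inr (Or.inr (Or.inr (Or.inl ⟨g4, a, ⟨g2, g5⟩, g3⟩)))
      · by_cases g5 : a ∈ B
        · exact Or.inr (Or.inl (Or.inr (Or.inr ⟨by omega, a, g5, g3⟩)))
        · exact Or.inr (Or.inr (Or.inr (Or.inr ⟨by omega, a, ⟨g2, g5⟩, g3⟩)))
    · by_cases g2 : b ∈ Y
      · exact Or.inl g2
      by_cases g3 : b ∈ Ed.biUnion W
      · exact Or.inr (Or.inr (Or.inl g3))
      · exact Or.inr (Or.inl (Or.inl (Or.inr ⟨fun h => h.elim g3 g1, g2⟩)))

theorem near_gap : ∃ n0 : ℕ, ∀ (α : Type) [Fintype α] [DecidableEq α], n0 ≤ Fintype.card α →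
    ∀ E : (Fin 5 → α) → Prop, Lat E → ∀ p : Fin 5 → α,
      ∃ U, PM E U ∧ Disjoint U (pc p) ∧ 5 * (Fintype.card α - 1) ≤ U.card := by
  obtain ⟨J, hJ⟩ : ∃ J : ℕ, 6400000 ≤ J := ⟨_, le_rfl⟩
  obtain ⟨c, hc⟩ : ∃ c : ℕ, c = 4 ^ (J ^ 2) := ⟨_, rfl⟩
  have hc1 : J ^ 2 ≤ c := hc ▸ (Nat.lt_pow_self (by norm_num)).le
  have hc2 : 4 ≤ c := by nlinarith
  obtain ⟨n0, hn0⟩ := polylog (10 ^ 17 * (23040 * 12 * 4240 ^ 16 * (2 * c) ^ 32) ^ 15) (49 * 15)
  refine ⟨n0, fun α _ _ hn E hE p => ?_⟩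
  have h0 := hn0 _ hn
  set n := Fintype.card α with hn'
  obtain ⟨l, hl⟩ : ∃ l, l = Nat.log 2 n + 1 := ⟨_, rfl⟩
  have hl1 : 1 ≤ l := by omega
  have hl2 : n < 2 ^ l := hl ▸ Nat.lt_pow_succ_log_self (by norm_num) n
  obtain ⟨t, ht⟩ : ∃ t, t = c * (2 * l) := ⟨_, rfl⟩
  obtain ⟨k, hk⟩ : ∃ k, k = 4240 * l * t ^ 2 := ⟨_, rfl⟩
  obtain ⟨M, hM⟩ : ∃ M, M = 12 * l * k ^ 16 := ⟨_, rfl⟩
  have h1 : 10 ^ 17 * (23040 * M) ^ 15 ≤ n := by
    have : 23040 * M = 23040 * 12 * 4240 ^ 16 * (2 * c) ^ 32 * l ^ 49 := by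
      rw [hM, hk, ht]; ring
    rw [this, mul_pow _ (l ^ 49), ← pow_mul, ← mul_assoc, hl]
    exact h0
  clear h0 hn0
  have ht1 : c ≤ t := ht ▸ Nat.le_mul_of_pos_right _ (by omega)
  have ht2 : 8 ≤ t := by rw [ht]; nlinarith
  have hk1 : 4240 * t ^ 2 ≤ k := by rw [hk]; gcongr; exact Nat.le_mul_of_pos_right _ hl1
  have hk2 : 2 * l ≤ k := by rw [hk]; nlinarith [Nat.one_le_pow 2 t (by omega)]
  have hM1 : k ^ 16 ≤ M := hM ▸ Nat.le_mul_of_pos_left _ (by omega)
  have hk3 : k ≤ k ^ 16 := Nat.le_self_pow (by norm_num) _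
  have hM2 : 23040 * M ≤ n := by
    have := Nat.le_self_pow (n := 15) (by norm_num) (23040 * M)
    omega
  have ht3 : t ≤ t ^ 2 := Nat.le_self_pow (by norm_num) t
  have : Nonempty α := Fintype.card_pos_iff.1 (by omega)
  have hβ : n / (20 * t) * (20 * t) ≤ n := Nat.div_mul_le_self _ _
  obtain ⟨m, hm, T, hT, hA⟩ := exists_frame hE J (2 * l) t (n / (20 * t)) (by omega) hJ (by omega)
    (by rw [ht, hc]) (by
      have h2 : Real.log n ≤ Real.log (2 ^ l) :=
        Real.log_le_log (by exact_mod_cast (by omega : 0 < n)) (by exact_mod_cast hl2.le)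
      rw [Real.log_pow] at h2
      have h3 := mul_le_mul_of_nonneg_left Real.log_two_lt_d9.le (Nat.cast_nonneg (α := ℝ) l)
      have h4 : (0 : ℝ) ≤ l := Nat.cast_nonneg _
      push_cast
      linarith) (by
      calc (5 * t ^ 2 * J ^ 2) ^ 2 ≤ (k * k) ^ 2 := by
            refine Nat.pow_le_pow_left (Nat.mul_le_mul (by omega) ?_) _
            omega
        _ = k ^ 4 := by ring
        _ ≤ k ^ 16 := Nat.pow_le_pow_right (by omega) (by norm_num)
        _ ≤ n := by omega) (by nlinarith)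
  have hm1 : m ≤ n := by simpa using Fintype.card_le_of_injective _ (hT 0)
  set T' : {a : Fin m // Disjoint (col (T a)) (col p)} → Fin 5 → α := fun a => T a.1 with hT'
  have hT1 : ∀ j, Function.Injective (fun a => T' a j) := fun j a b h => Subtype.ext (hT j h)
  obtain ⟨m', hm'⟩ : ∃ m', m' = Fintype.card {a : Fin m // Disjoint (col (T a)) (col p)} :=
    ⟨_, rfl⟩
  have hm2 : m' ≤ m ∧ m ≤ m' + 5 := by
    have g1 := card_hit hT (col p)
    have g2 := card_filter_add_card_filter_not (s := (univ : Finset (Fin m)))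
      (fun a => Disjoint (col (T a)) (col p))
    rw [card_col] at g1
    rw [card_univ, Fintype.card_fin, ← Fintype.card_subtype, ← hm'] at g2
    omega
  have hG : n / (240 * M) * (240 * M) ≤ n := Nat.div_mul_le_self _ _
  obtain ⟨S, hS1, hS2⟩ := exists_res2 hE hT1 (by rw [← hm']; omega) (n / (240 * M)) M k l
    (by omega) hl1 (by omega) hl2 hM (by nlinarith)
  have : Nonempty {a : Fin m // Disjoint (col (T a)) (col p)} :=
    Fintype.card_pos_iff.1 (by omega)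
  refine assemble2 hE hT1 p (fun a => disjoint_col.1 a.2) (fun a b => hA a.1 b.1) hS2 hl1 ?_ ?_ ?_
    (by nlinarith) (X := 23040 * M) (by omega) h1 ?_
  · have := card_le_univ S
    omega
  · exact (Nat.mul_le_mul_right _ hk2).trans hS1
  · rw [Nat.le_div_iff_mul_le (by omega)]
    have g1 : 26 + 80 * t ≤ 106 * t := by omega
    have g2 : (26 + 80 * t) * (20 * t * l * S.card) ≤ 106 * t * (20 * t * l * S.card) :=
      Nat.mul_le_mul_right _ g1
    have g3 : 2 * (106 * t * (20 * t * l * S.card)) = k * S.card := by rw [hk]; ring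
    have g4 : (5 * (2 * l * S.card) + 5 + (10 * t + 2) * (8 * l * S.card)) * (20 * t)
        = (26 + 80 * t) * (20 * t * l * S.card) + 100 * t := by ring
    omega
  · intro r hr
    rw [Nat.le_div_iff_mul_le (by omega)]
    nlinarith

lemma PM.index {U : Finset (Col α)} (h : PM E U) {p : Fin 5 → α} (hp : Disjoint U (pc p))
    (hk : 5 * (Fintype.card α - 1) ≤ U.card) :
    ∃ T : α → Fin 5 → α, (∀ i, i ≠ p 0 → E (T i) ∧ T i 0 = i ∧ T i 1 ≠ p 1 ∧ T i 2 ≠ p 2) ∧
      ∀ j i i', i ≠ p 0 → i' ≠ p 0 → T i j = T i' j → i = i' := by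
  obtain ⟨M, h1, h2, rfl⟩ := h
  have h3 := (bal_biUnion_col M h2).card
  have h4 : ∀ g ∈ M, ∀ j : Fin 5, j.val < 3 → g j ≠ p j := fun g hg j hj h =>
    disjoint_left.1 hp (mem_biUnion.2 ⟨g, hg, (mem_col (b := (j, g j))).2 rfl⟩)
      (mem_pc.2 ⟨hj, h.symm⟩)
  have h5 : ∀ j, ∀ g ∈ M, ∀ g' ∈ M, g j = g' j → g = g' := by
    intro j g hg g' hg' h
    by_contra hne
    exact disjoint_col.1 (h2 hg hg' hne) j h
  have h6 : M.image (fun g => g 0) = univ.erase (p 0) := by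
    refine eq_of_subset_of_card_le (fun x hx => ?_) ?_
    · obtain ⟨g, hg, rfl⟩ := mem_image.1 hx
      exact mem_erase.2 ⟨h4 g hg 0 (by decide), mem_univ _⟩
    · rw [card_image_of_injOn (fun g hg g' hg' h => h5 0 g hg g' hg' h),
        card_erase_of_mem (mem_univ _), card_univ]
      omega
  have h7 : ∀ i, ∃ g : Fin 5 → α, i ≠ p 0 → g ∈ M ∧ g 0 = i := by
    intro i
    by_cases hi : i = p 0
    · exact ⟨p, fun h => absurd hi h⟩
    · obtain ⟨g, hg, e⟩ := mem_image.1 (h6 ▸ mem_erase.2 ⟨hi, mem_univ _⟩ :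
        i ∈ M.image (fun g => g 0))
      exact ⟨g, fun _ => ⟨hg, e⟩⟩
  choose T hT using h7
  refine ⟨T, fun i hi => ⟨h1 _ (hT i hi).1, (hT i hi).2, h4 _ (hT i hi).1 1 (by decide),
    h4 _ (hT i hi).1 2 (by decide)⟩, fun j i i' hi hi' h => ?_⟩
  rw [← (hT i hi).2, h5 j _ (hT i hi).1 _ (hT i' hi').1 h, (hT i' hi').2]

end Pool.Agent.Lib.MP_356f68_co.Cube
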